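import Mathlib

/-!
# A planar graph with `|E(W)| ≤ 2 |W| - 2` that is not a contact graph of L-shapes

The graph has a hub `0` and four copies of `K₄` (petals) that share the hub and nothing else;
cyclically consecutive petals are joined by a path through a vertex of degree two (a link). It has
17 vertices and 32 edges.

Suppose that it has a contact representation by L-shapes. The two ends of the hub touch at most two
petals. For any other petal, the three shapes touch the hub with one end each and touch each other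
cyclically with the other ends. This forces them to form a staircase around the bend of the hub,
from one arm to the other. For two such petals one is inside the staircase of the other, and
everything connected to it is as well. This gives a contradiction.
-/

set_option autoImplicit false

namespace Pool.Agent.Results.MP_d36e69_co.NotLContact

open Finset

/-- An L-shape: its bend is `(x, y)`, its horizontal arm ends at `(hx, y)` and its vertical arm ends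
at `(x, vy)`. -/
structure LShape where
  /-- first coordinate of the bend -/
  x : ℝ
  /-- second coordinate of the bend -/
  y : ℝ
  /-- first coordinate of the end of the horizontal arm -/
  hx : ℝ
  /-- second coordinate of the end of the vertical arm -/
  vy : ℝ
  /-- the horizontal arm has positive length -/
  hx_ne : hx ≠ x
  /-- the vertical arm has positive length -/
  vy_ne : vy ≠ y

/-- The points of an L-shape. -/
def LShape.carrier (s : LShape) : Set (ℝ × ℝ) :=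
  {p | (p.2 = s.y ∧ p.1 ∈ Set.uIcc s.x s.hx) ∨ (p.1 = s.x ∧ p.2 ∈ Set.uIcc s.y s.vy)}

/-- The bend of an L-shape. -/
def LShape.bend (s : LShape) : ℝ × ℝ := (s.x, s.y)

/-- The two endpoints of an L-shape. -/
def LShape.IsEnd (s : LShape) (p : ℝ × ℝ) : Prop := p = (s.hx, s.y) ∨ p = (s.x, s.vy)

/-- The endpoint `p` of `s` is a point of `t` that is neither an endpoint nor the bend of `t`. -/
def TouchesAt (s t : LShape) (p : ℝ × ℝ) : Prop :=
  s.IsEnd p ∧ p ∈ t.carrier ∧ ¬ t.IsEnd p ∧ p ≠ t.bend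

/-- `p` is a contact point of `s` and `t`. -/
def ContactAt (s t : LShape) (p : ℝ × ℝ) : Prop := TouchesAt s t p ∨ TouchesAt t s p

/-- `L` is an L-contact representation of `G`: every common point of two different shapes is a
contact point, and two shapes make contact if and only if the vertices are adjacent. -/
def IsRep {V : Type} (G : SimpleGraph V) (L : V → LShape) : Prop :=
  (∀ u v, u ≠ v → ∀ p, p ∈ (L u).carrier → p ∈ (L v).carrier → ContactAt (L u) (L v) p) ∧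
    ∀ u v, u ≠ v → (G.Adj u v ↔ ∃ p, ContactAt (L u) (L v) p)

/-- `G` is an L-contact graph. -/
def IsLContactGraph {V : Type} (G : SimpleGraph V) : Prop := ∃ L : V → LShape, IsRep G L

/-- `G` is planar: it has a crossing-free straight-line drawing in the plane (Fáry). -/
def Planar {V : Type} (G : SimpleGraph V) : Prop :=
  ∃ p : V → ℝ × ℝ, Function.Injective p ∧
    (∀ u v w : V, G.Adj u v → w ≠ u → w ≠ v → p w ∉ segment ℝ (p u) (p v)) ∧
    (∀ u v x y : V, G.Adj u v → G.Adj x y → s(u, v) ≠ s(x, y) →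
      ∀ z ∈ segment ℝ (p u) (p v), z ∈ segment ℝ (p x) (p y) →
        ∃ w : V, (w = u ∨ w = v) ∧ (w = x ∨ w = y) ∧ z = p w)

/-- Every nonempty set `W` of vertices spans at most `2 |W| - 2` edges. -/
def Sparse {V : Type} (G : SimpleGraph V) : Prop :=
  ∀ W : Finset V, W.Nonempty → Set.ncard {e | e ∈ G.edgeSet ∧ ∀ x ∈ e, x ∈ W} + 2 ≤ 2 * W.card

/-! ### The graph -/

/-- The `k`-th vertex of the `i`-th petal. -/
def pet (i : Fin 4) (k : Fin 3) : Fin 17 := ⟨1 + 3 * i.val + k.val, by omega⟩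

/-- The vertex of degree two between the petals `i` and `i + 1`. -/
def link (i : Fin 4) : Fin 17 := ⟨13 + i.val, by omega⟩

/-- The list of edges. -/
def EL : List (Fin 17 × Fin 17) :=
  [(0, 1), (0, 2), (0, 3), (1, 2), (1, 3), (2, 3), (13, 1), (13, 5),
   (0, 4), (0, 5), (0, 6), (4, 5), (4, 6), (5, 6), (14, 4), (14, 8),
   (0, 7), (0, 8), (0, 9), (7, 8), (7, 9), (8, 9), (15, 7), (15, 11),
   (0, 10), (0, 11), (0, 12), (10, 11), (10, 12), (11, 12), (16, 10), (16, 2)]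

/-- The graph. -/
def GG : SimpleGraph (Fin 17) where
  Adj u v := (u, v) ∈ EL ∨ (v, u) ∈ EL
  symm := ⟨fun _ _ h => h.symm⟩
  loopless := ⟨by decide⟩

instance : DecidableRel GG.Adj := fun u v => inferInstanceAs (Decidable ((u, v) ∈ EL ∨ (v, u) ∈ EL))

theorem adj_hub : ∀ i k, GG.Adj (pet i k) 0 := by decide
theorem adj_pet : ∀ i k l, k ≠ l → GG.Adj (pet i k) (pet i l) := by decide
theorem adj_link : ∀ i, GG.Adj (link i) (pet i 0) := by decide
theorem adj_link' : ∀ i, GG.Adj (link i) (pet (i + 1) 1) := by decide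
theorem nadj_pet : ∀ i j k l, i ≠ j → ¬ GG.Adj (pet i k) (pet j l) := by decide
theorem nadj_link : ∀ i j k, i ≠ j → i + 1 ≠ j → ¬ GG.Adj (link i) (pet j k) := by decide
theorem pet_ne_hub : ∀ i k, pet i k ≠ 0 := by decide
theorem link_ne_hub : ∀ i, link i ≠ 0 := by decide
theorem link_ne_pet : ∀ i j k, link i ≠ pet j k := by decide
theorem pet_inj : ∀ i j k l, pet i k = pet j l → i = j ∧ k = l := by decide

/-! ### The graph is sparse -/

/-- A parent function with decreasing rank has at most `|W| - 1` edges in `W`. -/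
theorem forest_le {n : ℕ} (par : Fin n → Fin n) (rk : Fin n → ℕ) {W : Finset (Fin n)}
    (hW : W.Nonempty) : (W.filter fun u => par u ∈ W ∧ rk (par u) < rk u).card + 1 ≤ W.card := by
  obtain ⟨w, hw, hmin⟩ := W.exists_min_image rk hW
  have h1 : (W.filter fun u => par u ∈ W ∧ rk (par u) < rk u) ⊆ W.erase w := by
    intro u hu
    rw [mem_filter] at hu
    rw [mem_erase]
    refine ⟨?_, hu.1⟩
    rintro rfl
    have := hmin _ hu.2.1
    omega
  have h2 := card_le_card h1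
  rw [card_erase_of_mem hw] at h2
  have := card_pos.2 hW
  omega

/-- The first parent function. -/
def par1 : Fin 17 → Fin 17 := fun u => [0, 0, 1, 2, 0, 4, 5, 0, 7, 8, 0, 10, 11, 1, 4, 7, 10].getD u 0
/-- The first rank function. -/
def rk1 : Fin 17 → ℕ := fun u => [0, 1, 2, 3, 1, 2, 3, 1, 2, 3, 1, 2, 3, 4, 4, 4, 4].getD u 0
/-- The second parent function. -/
def par2 : Fin 17 → Fin 17 := fun u => [0, 3, 0, 0, 6, 0, 0, 9, 0, 0, 12, 0, 0, 5, 8, 11, 2].getD u 0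
/-- The second rank function. -/
def rk2 : Fin 17 → ℕ := fun u => [0, 2, 1, 1, 2, 1, 1, 2, 1, 1, 2, 1, 1, 3, 3, 3, 3].getD u 0

theorem forests : ∀ e ∈ EL,
    (rk1 (par1 e.1) < rk1 e.1 ∧ par1 e.1 = e.2) ∨ (rk1 (par1 e.2) < rk1 e.2 ∧ par1 e.2 = e.1) ∨
    (rk2 (par2 e.1) < rk2 e.1 ∧ par2 e.1 = e.2) ∨ (rk2 (par2 e.2) < rk2 e.2 ∧ par2 e.2 = e.1) := by
  decide +kernel

theorem sparse_GG : Sparse GG := by
  classical
  intro W hW
  have h1 := forest_le par1 rk1 hW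
  have h2 := forest_le par2 rk2 hW
  set A1 := W.filter fun u => par1 u ∈ W ∧ rk1 (par1 u) < rk1 u
  set A2 := W.filter fun u => par2 u ∈ W ∧ rk2 (par2 u) < rk2 u
  have hsub : {e | e ∈ GG.edgeSet ∧ ∀ x ∈ e, x ∈ W} ⊆
      ((A1.image (fun u => s(u, par1 u)) ∪ A2.image (fun u => s(u, par2 u)) :
        Finset (Sym2 (Fin 17))) : Set (Sym2 (Fin 17))) := by
    rintro e ⟨he, heW⟩
    -- for an oriented edge of the list
    have key : ∀ u v : Fin 17, (u, v) ∈ EL → u ∈ W → v ∈ W →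
        s(u, v) ∈ A1.image (fun u => s(u, par1 u)) ∪ A2.image (fun u => s(u, par2 u)) := by
      intro u v huv hu hv
      rw [mem_union, mem_image, mem_image]
      rcases forests _ huv with h | h | h | h
      · left
        refine ⟨u, mem_filter.2 ⟨hu, ?_, h.1⟩, ?_⟩
        · rw [h.2]; exact hv
        · rw [h.2]
      · left
        refine ⟨v, mem_filter.2 ⟨hv, ?_, h.1⟩, ?_⟩
        · rw [h.2]; exact hu
        · rw [h.2, Sym2.eq_swap]
      · right
        refine ⟨u, mem_filter.2 ⟨hu, ?_, h.1⟩, ?_⟩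
        · rw [h.2]; exact hv
        · rw [h.2]
      · right
        refine ⟨v, mem_filter.2 ⟨hv, ?_, h.1⟩, ?_⟩
        · rw [h.2]; exact hu
        · rw [h.2, Sym2.eq_swap]
    induction e using Sym2.ind with
    | _ u v =>
      have hu := heW u (Sym2.mem_mk_left _ _)
      have hv := heW v (Sym2.mem_mk_right _ _)
      rw [mem_coe]
      rcases he with he | he
      · exact key u v he hu hv
      · rw [Sym2.eq_swap]
        exact key v u he hv hu
  have h3 := Set.ncard_le_ncard hsub (Finset.finite_toSet _)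
  rw [Set.ncard_coe_finset] at h3
  have h4 := card_union_le (A1.image (fun u => s(u, par1 u))) (A2.image (fun u => s(u, par2 u)))
  have h5 : (A1.image (fun u => s(u, par1 u))).card ≤ A1.card := card_image_le
  have h6 : (A2.image (fun u => s(u, par2 u))).card ≤ A2.card := card_image_le
  omega

/-! ### The graph is planar -/

/-- Twice the signed area over a commutative ring. -/
def D {R : Type} [CommRing R] (a b c : R × R) : R :=
  (b.1 - a.1) * (c.2 - a.2) - (b.2 - a.2) * (c.1 - a.1)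

/-- Integer coordinates of the vertices. -/
def P : Fin 17 → ℤ × ℤ := fun u =>
  [(0, 0), (4, 7), (8, 0), (4, 3), (-7, 3), (0, 8), (-1, 4), (-3, -7), (-8, -1), (-4, -2), (7, -4),
    (1, -8), (2, -4), (2, 9), (-9, 2), (-2, -8), (8, -3)].getD u (0, 0)

/-- The drawing. -/
def PR (u : Fin 17) : ℝ × ℝ := (((P u).1 : ℤ), ((P u).2 : ℤ))

theorem D_cast (u v w : Fin 17) : D (PR u) (PR v) (PR w) = ((D (P u) (P v) (P w) : ℤ) : ℝ) := by
  unfold D PR; push_cast; ring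

theorem check1 : ∀ e ∈ EL, ∀ w : Fin 17, w ≠ e.1 → w ≠ e.2 → D (P e.1) (P e.2) (P w) ≠ 0 := by
  decide +kernel

theorem check2 : ∀ e ∈ EL, ∀ f ∈ EL, e.1 ≠ f.1 → e.1 ≠ f.2 → e.2 ≠ f.1 → e.2 ≠ f.2 →
    0 < D (P e.1) (P e.2) (P f.1) * D (P e.1) (P e.2) (P f.2) ∨
      0 < D (P f.1) (P f.2) (P e.1) * D (P f.1) (P f.2) (P e.2) := by
  decide +kernel

theorem P_inj : ∀ u v : Fin 17, P u = P v → u = v := by decide

theorem D_comb (a b y z : ℝ × ℝ) (t : ℝ) :
    D a b ((1 - t) • y + t • z) = (1 - t) * D a b y + t * D a b z := by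
  unfold D
  simp only [Prod.fst_add, Prod.snd_add, Prod.smul_fst, Prod.smul_snd, smul_eq_mul]
  ring

theorem D_on_seg {a b x : ℝ × ℝ} (h : x ∈ segment ℝ a b) : D a b x = 0 := by
  rw [segment_eq_image] at h
  obtain ⟨t, -, rfl⟩ := h
  simp only
  rw [D_comb]
  unfold D
  ring

theorem D_swap {R : Type} [CommRing R] (a b c : R × R) : D b a c = - D a b c := by unfold D; ring

/-- Two segments from a common point that are not collinear meet only there. -/
theorem seg_common {a b c z : ℝ × ℝ} (h : D a b c ≠ 0) (hb : z ∈ segment ℝ a b)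
    (hc : z ∈ segment ℝ a c) : z = a := by
  have h1 := D_on_seg hb
  rw [segment_eq_image] at hc
  obtain ⟨t, -, rfl⟩ := hc
  simp only at h1 ⊢
  rw [D_comb] at h1
  have h2 : D a b a = 0 := by unfold D; ring
  rw [h2, mul_zero, zero_add] at h1
  rcases mul_eq_zero.1 h1 with h3 | h3
  · rw [h3]; simp
  · exact absurd h3 h

/-- Two segments one of which lies strictly on one side of the line through the other. -/
theorem seg_disj {a b c d z : ℝ × ℝ} (h : 0 < D a b c * D a b d) (hab : z ∈ segment ℝ a b)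
    (hcd : z ∈ segment ℝ c d) : False := by
  have h1 := D_on_seg hab
  rw [segment_eq_image] at hcd
  obtain ⟨t, ⟨ht0, ht1⟩, rfl⟩ := hcd
  simp only at h1
  rw [D_comb] at h1
  have ht : 0 ≤ 1 - t := by linarith
  rcases pos_and_pos_or_neg_and_neg_of_mul_pos h with ⟨h2, h3⟩ | ⟨h2, h3⟩
  · rcases eq_or_lt_of_le ht0 with h4 | h4
    · rw [← h4] at h1; linarith
    · have := mul_pos h4 h3
      have := mul_nonneg ht h2.le
      linarith
  · rcases eq_or_lt_of_le ht0 with h4 | h4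
    · rw [← h4] at h1; linarith
    · have := mul_neg_of_pos_of_neg h4 h3
      have := mul_nonpos_of_nonneg_of_nonpos ht h2.le
      linarith

theorem D_ne {u v : Fin 17} (h : GG.Adj u v) {w : Fin 17} (h1 : w ≠ u) (h2 : w ≠ v) :
    D (PR u) (PR v) (PR w) ≠ 0 := by
  rw [D_cast]
  rcases h with h | h
  · exact_mod_cast check1 _ h w h1 h2
  · have h3 := check1 _ h w h2 h1
    simp only at h3
    rw [D_swap]
    have h4 : D (P v) (P u) (P w) ≠ 0 := h3
    exact_mod_cast neg_ne_zero.2 h4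

theorem D_disj {u v x y : Fin 17} (h : GG.Adj u v) (h' : GG.Adj x y) (h1 : u ≠ x) (h2 : u ≠ y)
    (h3 : v ≠ x) (h4 : v ≠ y) :
    0 < D (PR u) (PR v) (PR x) * D (PR u) (PR v) (PR y) ∨
      0 < D (PR x) (PR y) (PR u) * D (PR x) (PR y) (PR v) := by
  have key : ∀ u v x y : Fin 17, (u, v) ∈ EL → (x, y) ∈ EL → u ≠ x → u ≠ y → v ≠ x → v ≠ y →
      0 < D (PR u) (PR v) (PR x) * D (PR u) (PR v) (PR y) ∨
        0 < D (PR x) (PR y) (PR u) * D (PR x) (PR y) (PR v) := by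
    intro u v x y h h' h1 h2 h3 h4
    have h5 := check2 _ h _ h' h1 h2 h3 h4
    simp only at h5
    rw [D_cast, D_cast, D_cast, D_cast]
    rcases h5 with h5 | h5
    · left; exact_mod_cast h5
    · right; exact_mod_cast h5
  have sw : ∀ a b c d : ℝ × ℝ, D b a c * D b a d = D a b c * D a b d := by
    intro a b c d; rw [D_swap, D_swap a b d]; ring
  rcases h with h | h <;> rcases h' with h' | h'
  · exact key u v x y h h' h1 h2 h3 h4
  · have := key u v y x h h' h2 h1 h4 h3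
    rw [sw (PR x) (PR y), mul_comm (D (PR u) (PR v) (PR y))] at this
    exact this
  · have := key v u x y h h' h3 h4 h1 h2
    rw [sw (PR u) (PR v), mul_comm (D (PR x) (PR y) (PR v))] at this
    exact this
  · have := key v u y x h h' h4 h3 h2 h1
    rw [sw (PR x) (PR y), sw (PR u) (PR v), mul_comm (D (PR u) (PR v) (PR y)),
      mul_comm (D (PR x) (PR y) (PR v))] at this
    exact this

theorem planar_GG : Planar GG := by
  refine ⟨PR, ?_, ?_, ?_⟩
  · intro u v h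
    apply P_inj
    have h1 := congrArg Prod.fst h
    have h2 := congrArg Prod.snd h
    simp only [PR] at h1 h2
    exact Prod.ext (by exact_mod_cast h1) (by exact_mod_cast h2)
  · intro u v w h h1 h2 hw
    exact D_ne h h1 h2 (D_on_seg hw)
  · intro u v x y h h' hne z hz hz'
    by_cases h1 : u = x
    · subst h1
      have hvy : y ≠ v := fun e => hne (by rw [e])
      exact ⟨u, Or.inl rfl, Or.inl rfl, seg_common (D_ne h h'.ne.symm hvy) hz hz'⟩
    by_cases h2 : u = y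
    · subst h2
      have hvx : x ≠ v := fun e => hne (by rw [e, Sym2.eq_swap])
      rw [segment_symm] at hz'
      exact ⟨u, Or.inl rfl, Or.inr rfl, seg_common (D_ne h h'.ne hvx) hz hz'⟩
    by_cases h3 : v = x
    · subst h3
      have huy : y ≠ u := fun e => hne (by rw [e, Sym2.eq_swap])
      rw [segment_symm] at hz
      exact ⟨v, Or.inr rfl, Or.inl rfl, seg_common (D_ne h.symm h'.ne.symm huy) hz hz'⟩
    by_cases h4 : v = y
    · subst h4
      have hux : x ≠ u := fun e => hne (by rw [e])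
      rw [segment_symm] at hz hz'
      exact ⟨v, Or.inr rfl, Or.inr rfl, seg_common (D_ne h.symm h'.ne hux) hz hz'⟩
    exfalso
    rcases D_disj h h' h1 h2 h3 h4 with h5 | h5
    · exact seg_disj h5 hz hz'
    · exact seg_disj h5 hz' hz

/-! ### Contacts in terms of coordinates -/

/-- `t` lies strictly between `a` and `b`. -/
def Btw (a b t : ℝ) : Prop := (a < t ∧ t < b) ∨ (b < t ∧ t < a)

/-- The end of the horizontal arm of `s` lies strictly inside the vertical arm of `t`. -/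
def HV (s t : LShape) : Prop := s.hx = t.x ∧ Btw t.y t.vy s.y

/-- The end of the vertical arm of `s` lies strictly inside the horizontal arm of `t`. -/
def VH (s t : LShape) : Prop := s.vy = t.y ∧ Btw t.x t.hx s.x

theorem exists_btw {a b c d : ℝ} (hab : b ≠ a) (h : Btw c d b) : ∃ t, Btw a b t ∧ Btw c d t := by
  rcases lt_or_gt_of_ne hab with h1 | h1
  · rcases h with ⟨h2, h3⟩ | ⟨h2, h3⟩
    · obtain ⟨t, ht1, ht2⟩ := exists_between (lt_min h1 h3)
      rw [lt_min_iff] at ht2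
      exact ⟨t, Or.inr ⟨ht1, ht2.1⟩, Or.inl ⟨h2.trans ht1, ht2.2⟩⟩
    · obtain ⟨t, ht1, ht2⟩ := exists_between (lt_min h1 h3)
      rw [lt_min_iff] at ht2
      exact ⟨t, Or.inr ⟨ht1, ht2.1⟩, Or.inr ⟨h2.trans ht1, ht2.2⟩⟩
  · rcases h with ⟨h2, h3⟩ | ⟨h2, h3⟩
    · obtain ⟨t, ht1, ht2⟩ := exists_between (max_lt h1 h2)
      rw [max_lt_iff] at ht1
      exact ⟨t, Or.inl ⟨ht1.1, ht2⟩, Or.inl ⟨ht1.2, ht2.trans h3⟩⟩
    · obtain ⟨t, ht1, ht2⟩ := exists_between (max_lt h1 h2)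
      rw [max_lt_iff] at ht1
      exact ⟨t, Or.inl ⟨ht1.1, ht2⟩, Or.inr ⟨ht1.2, ht2.trans h3⟩⟩

theorem Btw.mem {a b t : ℝ} (h : Btw a b t) : t ∈ Set.uIcc a b := by
  rw [Set.mem_uIcc]
  rcases h with h | h
  · exact Or.inl ⟨h.1.le, h.2.le⟩
  · exact Or.inr ⟨h.1.le, h.2.le⟩

theorem Btw.ne {a b t : ℝ} (h : Btw a b t) : t ≠ a ∧ t ≠ b := by
  rcases h with h | h
  · exact ⟨h.1.ne', h.2.ne⟩
  · exact ⟨h.2.ne, h.1.ne'⟩

theorem btw_of_mem {a b t : ℝ} (h : t ∈ Set.uIcc a b) (ha : t ≠ a) (hb : t ≠ b) : Btw a b t := by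
  rw [Set.mem_uIcc] at h
  rcases h with h | h
  · exact Or.inl ⟨lt_of_le_of_ne h.1 (Ne.symm ha), lt_of_le_of_ne h.2 hb⟩
  · exact Or.inr ⟨lt_of_le_of_ne h.1 (Ne.symm hb), lt_of_le_of_ne h.2 ha⟩

section Rep

variable {V : Type} {G : SimpleGraph V} {L : V → LShape}

theorem touch_cases (hL : IsRep G L) {u w : V} (huw : u ≠ w) {p : ℝ × ℝ}
    (h : TouchesAt (L u) (L w) p) : HV (L u) (L w) ∨ VH (L u) (L w) := by
  obtain ⟨h1, h2, h3, h4⟩ := h
  rcases h1 with rfl | rfl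
  · left
    rcases h2 with ⟨e1, e2⟩ | ⟨e1, e2⟩
    · exfalso
      simp only at e1 e2
      have n1 : (L u).hx ≠ (L w).hx := fun e => h3 (Or.inl (Prod.ext e e1))
      have n2 : (L u).hx ≠ (L w).x := fun e => h4 (Prod.ext e e1)
      obtain ⟨t, ht1, ht2⟩ := exists_btw (L u).hx_ne (btw_of_mem e2 n2 n1)
      rcases hL.1 u w huw (t, (L u).y) (Or.inl ⟨rfl, ht1.mem⟩) (Or.inl ⟨e1, ht2.mem⟩) with h5 | h5
      · rcases h5.1 with h6 | h6
        · exact ht1.ne.2 (congrArg Prod.fst h6)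
        · exact (L u).vy_ne (congrArg Prod.snd h6).symm
      · rcases h5.1 with h6 | h6
        · exact ht2.ne.2 (congrArg Prod.fst h6)
        · exact (L w).vy_ne ((congrArg Prod.snd h6).symm.trans e1)
    · simp only at e1 e2
      refine ⟨e1, btw_of_mem e2 ?_ ?_⟩
      · exact fun e => h4 (Prod.ext e1 e)
      · exact fun e => h3 (Or.inr (Prod.ext e1 e))
  · right
    rcases h2 with ⟨e1, e2⟩ | ⟨e1, e2⟩
    · simp only at e1 e2
      refine ⟨e1, btw_of_mem e2 ?_ ?_⟩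
      · exact fun e => h4 (Prod.ext e e1)
      · exact fun e => h3 (Or.inl (Prod.ext e e1))
    · exfalso
      simp only at e1 e2
      have n1 : (L u).vy ≠ (L w).vy := fun e => h3 (Or.inr (Prod.ext e1 e))
      have n2 : (L u).vy ≠ (L w).y := fun e => h4 (Prod.ext e1 e)
      obtain ⟨t, ht1, ht2⟩ := exists_btw (L u).vy_ne (btw_of_mem e2 n2 n1)
      rcases hL.1 u w huw ((L u).x, t) (Or.inr ⟨rfl, ht1.mem⟩) (Or.inr ⟨e1, ht2.mem⟩) with h5 | h5
      · rcases h5.1 with h6 | h6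
        · exact (L u).hx_ne (congrArg Prod.fst h6).symm
        · exact ht1.ne.2 (congrArg Prod.snd h6)
      · rcases h5.1 with h6 | h6
        · exact (L w).hx_ne ((congrArg Prod.fst h6).symm.trans e1)
        · exact ht2.ne.2 (congrArg Prod.snd h6)

theorem adj_cases (hL : IsRep G L) {u w : V} (h : G.Adj u w) :
    (HV (L u) (L w) ∨ VH (L u) (L w)) ∨ (HV (L w) (L u) ∨ VH (L w) (L u)) := by
  obtain ⟨p, hp | hp⟩ := (hL.2 u w h.ne).1 h
  · exact Or.inl (touch_cases hL h.ne hp)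
  · exact Or.inr (touch_cases hL h.ne.symm hp)

theorem disjoint_of_nadj (hL : IsRep G L) {u w : V} (huw : u ≠ w) (h : ¬ G.Adj u w) {p : ℝ × ℝ}
    (hu : p ∈ (L u).carrier) (hw : p ∈ (L w).carrier) : False :=
  h ((hL.2 u w huw).2 ⟨p, hL.1 u w huw p hu hw⟩)

theorem HV.mem {s t : LShape} (h : HV s t) : (s.hx, s.y) ∈ t.carrier := Or.inr ⟨h.1, h.2.mem⟩

theorem VH.mem {s t : LShape} (h : VH s t) : (s.x, s.vy) ∈ t.carrier := Or.inl ⟨h.1, h.2.mem⟩

theorem HV.not_end {s t : LShape} (h : HV s t) : ¬ t.IsEnd (s.hx, s.y) := by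
  rintro (h1 | h1)
  · exact h.2.ne.1 (congrArg Prod.snd h1)
  · exact h.2.ne.2 (congrArg Prod.snd h1)

theorem VH.not_end {s t : LShape} (h : VH s t) : ¬ t.IsEnd (s.x, s.vy) := by
  rintro (h1 | h1)
  · exact h.2.ne.2 (congrArg Prod.fst h1)
  · exact h.2.ne.1 (congrArg Prod.fst h1)

theorem HV_unique (hL : IsRep G L) {u w w' : V} (h : HV (L u) (L w)) (h' : HV (L u) (L w')) :
    w = w' := by
  by_contra hne
  rcases hL.1 w w' hne _ h.mem h'.mem with h1 | h1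
  · exact h.not_end h1.1
  · exact h'.not_end h1.1

theorem VH_unique (hL : IsRep G L) {u w w' : V} (h : VH (L u) (L w)) (h' : VH (L u) (L w')) :
    w = w' := by
  by_contra hne
  rcases hL.1 w w' hne _ h.mem h'.mem with h1 | h1
  · exact h.not_end h1.1
  · exact h'.not_end h1.1

end Rep

/-! ### Moving a representation -/

/-- Translating and reflecting an L-shape. -/
def LShape.map (ε δ a b : ℝ) (hε : ε = 1 ∨ ε = -1) (hδ : δ = 1 ∨ δ = -1) (s : LShape) : LShape where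
  x := ε * (s.x - a)
  y := δ * (s.y - b)
  hx := ε * (s.hx - a)
  vy := δ * (s.vy - b)
  hx_ne := by
    intro h
    apply s.hx_ne
    rcases hε with rfl | rfl <;> linarith
  vy_ne := by
    intro h
    apply s.vy_ne
    rcases hδ with rfl | rfl <;> linarith

section Map

variable {ε δ a b : ℝ} (hε : ε = 1 ∨ ε = -1) (hδ : δ = 1 ∨ δ = -1)

include hε in
theorem aux_eq (p x a : ℝ) : p = ε * (x - a) ↔ ε * p + a = x := by
  rcases hε with rfl | rfl <;> constructor <;> intro h <;> linarith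

include hε in
theorem aux_mem (p x y a : ℝ) :
    p ∈ Set.uIcc (ε * (x - a)) (ε * (y - a)) ↔ ε * p + a ∈ Set.uIcc x y := by
  rw [Set.mem_uIcc, Set.mem_uIcc]
  rcases hε with rfl | rfl <;> constructor <;> rintro (⟨h1, h2⟩ | ⟨h1, h2⟩)
  · left; constructor <;> linarith
  · right; constructor <;> linarith
  · left; constructor <;> linarith
  · right; constructor <;> linarith
  · right; constructor <;> linarith
  · left; constructor <;> linarith
  · right; constructor <;> linarith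
  · left; constructor <;> linarith

theorem mem_map (s : LShape) (p : ℝ × ℝ) :
    p ∈ (s.map ε δ a b hε hδ).carrier ↔ (ε * p.1 + a, δ * p.2 + b) ∈ s.carrier := by
  simp only [LShape.carrier, LShape.map, Set.mem_ofPred_eq]
  rw [aux_eq hδ, aux_mem hε, aux_eq hε, aux_mem hδ]

theorem isEnd_map (s : LShape) (p : ℝ × ℝ) :
    (s.map ε δ a b hε hδ).IsEnd p ↔ s.IsEnd (ε * p.1 + a, δ * p.2 + b) := by
  simp only [LShape.IsEnd, LShape.map, Prod.ext_iff]
  rw [aux_eq hε, aux_eq hδ, aux_eq hε, aux_eq hδ]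

theorem bend_map (s : LShape) (p : ℝ × ℝ) :
    p = (s.map ε δ a b hε hδ).bend ↔ (ε * p.1 + a, δ * p.2 + b) = s.bend := by
  simp only [LShape.bend, LShape.map, Prod.ext_iff]
  rw [aux_eq hε, aux_eq hδ]

theorem touches_map (s t : LShape) (p : ℝ × ℝ) :
    TouchesAt (s.map ε δ a b hε hδ) (t.map ε δ a b hε hδ) p ↔
      TouchesAt s t (ε * p.1 + a, δ * p.2 + b) := by
  unfold TouchesAt
  rw [isEnd_map, isEnd_map, mem_map, ne_eq, ne_eq, bend_map]

theorem rep_map {V : Type} {G : SimpleGraph V} {L : V → LShape} (hL : IsRep G L) :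
    IsRep G (fun u => (L u).map ε δ a b hε hδ) := by
  constructor
  · intro u v huv p hu hv
    rw [mem_map] at hu hv
    have := hL.1 u v huv _ hu hv
    unfold ContactAt at this ⊢
    rw [touches_map, touches_map]
    exact this
  · intro u v huv
    rw [hL.2 u v huv]
    constructor
    · rintro ⟨p, hp⟩
      refine ⟨(ε * (p.1 - a), δ * (p.2 - b)), ?_⟩
      unfold ContactAt at hp ⊢
      rw [touches_map, touches_map]
      have e : (ε * (ε * (p.1 - a), δ * (p.2 - b)).1 + a,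
          δ * (ε * (p.1 - a), δ * (p.2 - b)).2 + b) = p := by
        apply Prod.ext
        · exact (aux_eq hε _ _ _).1 rfl
        · exact (aux_eq hδ _ _ _).1 rfl
      rw [e]
      exact hp
    · rintro ⟨p, hp⟩
      refine ⟨(ε * p.1 + a, δ * p.2 + b), ?_⟩
      unfold ContactAt at hp ⊢
      rw [touches_map, touches_map] at hp
      exact hp

end Map

/-! ### The staircase -/

/-- The region under a staircase. -/
def Stair (x1 x2 y1 y2 x y : ℝ) : Prop := 0 < x ∧ x < x2 ∧ 0 < y ∧ y < y2 ∧ (x1 < x ∨ y < y1)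

section Stair

variable {Bl : ℝ → ℝ → Prop} {x1 x2 y1 y2 : ℝ}

theorem stair_hor (hx1 : 0 < x1) (h2 : ∀ t, y1 ≤ t → t ≤ y2 → Bl x1 t)
    (h4 : ∀ t, 0 ≤ t → t ≤ y2 → Bl x2 t) (h6 : ∀ t, 0 ≤ t → t ≤ y1 → Bl 0 t) {x x' y : ℝ}
    (h : Stair x1 x2 y1 y2 x y) (h' : ¬ Stair x1 x2 y1 y2 x' y) :
    ∃ t ∈ Set.uIcc x x', Bl t y := by
  obtain ⟨a1, a2, a3, a4, a5⟩ := h
  rcases lt_or_ge y y1 with hy1 | hy1
  · rcases le_or_gt x' 0 with c1 | c1
    · exact ⟨0, Set.mem_uIcc.2 (Or.inr ⟨c1, a1.le⟩), h6 y a3.le hy1.le⟩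
    · rcases le_or_gt x2 x' with c2 | c2
      · exact ⟨x2, Set.mem_uIcc.2 (Or.inl ⟨a2.le, c2⟩), h4 y a3.le a4.le⟩
      · exact absurd ⟨c1, c2, a3, a4, Or.inr hy1⟩ h'
  · have hx : x1 < x := a5.resolve_right (not_lt.2 hy1)
    rcases le_or_gt x' x1 with c1 | c1
    · exact ⟨x1, Set.mem_uIcc.2 (Or.inr ⟨c1, hx.le⟩), h2 y hy1 a4.le⟩
    · rcases le_or_gt x2 x' with c2 | c2
      · exact ⟨x2, Set.mem_uIcc.2 (Or.inl ⟨a2.le, c2⟩), h4 y a3.le a4.le⟩
      · exact absurd ⟨hx1.trans c1, c2, a3, a4, Or.inl c1⟩ h'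

theorem stair_ver (hy12 : y1 < y2) (h1 : ∀ t, 0 ≤ t → t ≤ x1 → Bl t y1) (h3 : ∀ t, x1 ≤ t → t ≤ x2 → Bl t y2)
    (h5 : ∀ t, 0 ≤ t → t ≤ x2 → Bl t 0) {x y y' : ℝ}
    (h : Stair x1 x2 y1 y2 x y) (h' : ¬ Stair x1 x2 y1 y2 x y') :
    ∃ t ∈ Set.uIcc y y', Bl x t := by
  obtain ⟨a1, a2, a3, a4, a5⟩ := h
  rcases le_or_gt y' 0 with c1 | c1
  · exact ⟨0, Set.mem_uIcc.2 (Or.inr ⟨c1, a3.le⟩), h5 x a1.le a2.le⟩
  · rcases le_or_gt x x1 with hx | hx
    · have hy : y < y1 := a5.resolve_left (not_lt.2 hx)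
      rcases le_or_gt y1 y' with c2 | c2
      · exact ⟨y1, Set.mem_uIcc.2 (Or.inl ⟨hy.le, c2⟩), h1 x a1.le hx⟩
      · exact absurd ⟨a1, a2, c1, c2.trans hy12, Or.inr c2⟩ h'
    · rcases le_or_gt y2 y' with c2 | c2
      · exact ⟨y2, Set.mem_uIcc.2 (Or.inl ⟨a4.le, c2⟩), h3 x hx.le a2.le⟩
      · exact absurd ⟨a1, a2, c1, c2, Or.inl hx⟩ h'

theorem stair_left (hx1 : 0 < x1) (hx : x1 < x2) (hy : y1 < y2) {y : ℝ} (h0 : 0 < y) :
    ∃ ε, 0 < ε ∧ ∀ x, 0 < x → x < ε → (Stair x1 x2 y1 y2 x y ↔ y < y1) := by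
  refine ⟨x1, hx1, fun x hx0 hx' => ?_⟩
  constructor
  · rintro ⟨-, -, -, -, h | h⟩
    · exact absurd h (not_lt.2 hx'.le)
    · exact h
  · intro h
    exact ⟨hx0, hx'.trans hx, h0, h.trans hy, Or.inr h⟩

theorem stair_bottom (hy1 : 0 < y1) (hy : y1 < y2) {x : ℝ} (h0 : 0 < x) :
    ∃ ε, 0 < ε ∧ ∀ y, 0 < y → y < ε → (Stair x1 x2 y1 y2 x y ↔ x < x2) := by
  refine ⟨y1, hy1, fun y hy0 hy' => ?_⟩
  constructor
  · rintro ⟨-, h, -⟩
    exact h
  · intro h
    exact ⟨h0, h, hy0, hy'.trans hy, Or.inr hy'⟩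

end Stair

/-- A region around the bend of the hub, whose boundary is blocked, and a shape `s` that starts on
the upper arm of the hub where the boundary of the region does. -/
structure Barrier (X Y : ℝ) (Bl : ℝ → ℝ → Prop) (R : ℝ → ℝ → Prop) (s : LShape) : Prop where
  hor : ∀ x x' y, R x y → ¬ R x' y → ∃ t ∈ Set.uIcc x x', Bl t y
  ver : ∀ x y y', R x y → ¬ R x y' → ∃ t ∈ Set.uIcc y y', Bl x t
  left : ∀ y, 0 < y → ∃ ε, 0 < ε ∧ ∀ x, 0 < x → x < ε → (R x y ↔ y < s.y)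
  box : ∀ x y, R x y → x < X ∧ y < Y
  land : s.hx = 0 ∧ 0 < s.x ∧ 0 < s.y

/-- Blocked points contain an arm. -/
theorem bl_h {Bl : ℝ → ℝ → Prop} {s : LShape} (h : ∀ p ∈ s.carrier, Bl p.1 p.2) {t : ℝ}
    (ht : t ∈ Set.uIcc s.x s.hx) : Bl t s.y := h (t, s.y) (Or.inl ⟨rfl, ht⟩)

theorem bl_v {Bl : ℝ → ℝ → Prop} {s : LShape} (h : ∀ p ∈ s.carrier, Bl p.1 p.2) {t : ℝ}
    (ht : t ∈ Set.uIcc s.y s.vy) : Bl s.x t := h (s.x, t) (Or.inr ⟨rfl, ht⟩)

/-- Two shapes start on the upper arm of the hub and one on the lower arm. -/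
theorem barrier_AAB {X Y : ℝ} {Bl : ℝ → ℝ → Prop} {a b c v : LShape}
    (hv : v.x = 0 ∧ v.y = 0 ∧ v.hx = X ∧ v.vy = Y) (hX : 0 < X) (hY : 0 < Y)
    (ba : ∀ p ∈ a.carrier, Bl p.1 p.2) (bb : ∀ p ∈ b.carrier, Bl p.1 p.2)
    (bc : ∀ p ∈ c.carrier, Bl p.1 p.2) (bv : ∀ t, 0 ≤ t → t < X → Bl t 0)
    (bv' : ∀ t, 0 ≤ t → t < Y → Bl 0 t)
    (ha : HV a v ∧ VH a b) (hb : HV b v ∧ VH b c) (hc : VH c v ∧ HV c a) :
    ∃ R s, (s = a ∨ s = b ∨ s = c) ∧ Barrier X Y Bl R s := by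
  obtain ⟨v1, v2, v3, v4⟩ := hv
  obtain ⟨⟨a1, a2⟩, a3, a4⟩ := ha
  obtain ⟨⟨b1, b2⟩, b3, b4⟩ := hb
  obtain ⟨⟨c1, c2⟩, c3, c4⟩ := hc
  rw [v1] at a1 b1
  rw [v2] at c1
  rw [v2, v4] at a2 b2
  rw [v1, v3] at c2
  rw [b1] at a4
  rw [c3] at b4
  rw [a3] at c4
  have a2' : 0 < a.y ∧ a.y < Y := by
    rcases a2 with h | h
    · exact h
    · exact absurd (h.1.trans h.2) (not_lt.2 hY.le)
  have b2' : 0 < b.y ∧ b.y < Y := by
    rcases b2 with h | h
    · exact h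
    · exact absurd (h.1.trans h.2) (not_lt.2 hY.le)
  have c2' : 0 < c.x ∧ c.x < X := by
    rcases c2 with h | h
    · exact h
    · exact absurd (h.1.trans h.2) (not_lt.2 hX.le)
  have hax : 0 < a.x ∧ a.x < b.x ∧ b.x < c.x := by
    rcases a4 with h | h <;> rcases b4 with h' | h'
    · exfalso; linarith [h.1, h.2, h'.1, h'.2, c2'.1]
    · exfalso; linarith [h.1, h.2, h'.1, h'.2, c2'.1]
    · exfalso; linarith [h.1, h.2, h'.1, h'.2, c2'.1]
    · exact ⟨h.1, h'.1.trans_le le_rfl, h'.2⟩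
  obtain ⟨x1, x2, x3⟩ := hax
  rcases c4 with h | h
  · -- `a` is below `b`
    refine ⟨Stair a.x c.x a.y c.y, a, Or.inl rfl, ?_⟩
    have g1 : ∀ t, 0 ≤ t → t ≤ a.x → Bl t a.y := fun t h1 h2 =>
      bl_h ba (Set.mem_uIcc.2 (Or.inr ⟨by rw [a1]; exact h1, h2⟩))
    have g2 : ∀ t, a.y ≤ t → t ≤ c.y → Bl a.x t := fun t h1 h2 =>
      bl_v ba (Set.mem_uIcc.2 (Or.inl ⟨h1, by rw [a3]; linarith [h.2]⟩))
    have g3 : ∀ t, a.x ≤ t → t ≤ c.x → Bl t c.y := fun t h1 h2 =>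
      bl_h bc (Set.mem_uIcc.2 (Or.inr ⟨by rw [c3]; exact h1, h2⟩))
    have g4 : ∀ t, 0 ≤ t → t ≤ c.y → Bl c.x t := fun t h1 h2 =>
      bl_v bc (Set.mem_uIcc.2 (Or.inr ⟨by rw [c1]; exact h1, h2⟩))
    have g5 : ∀ t, 0 ≤ t → t ≤ c.x → Bl t 0 := fun t h1 h2 => bv t h1 (by linarith [c2'.2])
    have g6 : ∀ t, 0 ≤ t → t ≤ a.y → Bl 0 t := fun t h1 h2 => bv' t h1 (by linarith [a2'.2])
    refine ⟨fun x x' y => stair_hor x1 g2 g4 g6, fun x y y' => stair_ver h.1 g1 g3 g5,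
      fun y h0 => stair_left x1 (x2.trans x3) h.1 h0, ?_, a1, x1, a2'.1⟩
    rintro x y ⟨-, h2, -, h4, -⟩
    exact ⟨h2.trans c2'.2, by linarith [h.2, b2'.2]⟩
  · -- `b` is below `a`
    refine ⟨Stair b.x c.x b.y c.y, b, Or.inr (Or.inl rfl), ?_⟩
    have hbx : 0 < b.x := x1.trans x2
    have g1 : ∀ t, 0 ≤ t → t ≤ b.x → Bl t b.y := fun t h1 h2 =>
      bl_h bb (Set.mem_uIcc.2 (Or.inr ⟨by rw [b1]; exact h1, h2⟩))
    have g2 : ∀ t, b.y ≤ t → t ≤ c.y → Bl b.x t := fun t h1 h2 =>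
      bl_v bb (Set.mem_uIcc.2 (Or.inl ⟨h1, by rw [b3]; exact h2⟩))
    have g3 : ∀ t, b.x ≤ t → t ≤ c.x → Bl t c.y := fun t h1 h2 =>
      bl_h bc (Set.mem_uIcc.2 (Or.inr ⟨by rw [c3]; linarith, h2⟩))
    have g4 : ∀ t, 0 ≤ t → t ≤ c.y → Bl c.x t := fun t h1 h2 =>
      bl_v bc (Set.mem_uIcc.2 (Or.inr ⟨by rw [c1]; exact h1, h2⟩))
    have g5 : ∀ t, 0 ≤ t → t ≤ c.x → Bl t 0 := fun t h1 h2 => bv t h1 (by linarith [c2'.2])
    have g6 : ∀ t, 0 ≤ t → t ≤ b.y → Bl 0 t := fun t h1 h2 => bv' t h1 (by linarith [b2'.2])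
    refine ⟨fun x x' y => stair_hor hbx g2 g4 g6, fun x y y' => stair_ver h.1 g1 g3 g5,
      fun y h0 => stair_left hbx x3 h.1 h0, ?_, b1, hbx, b2'.1⟩
    rintro x y ⟨-, h2, -, h4, -⟩
    exact ⟨h2.trans c2'.2, by linarith [h.2, a2'.2]⟩

/-- Two shapes start on the lower arm of the hub and one on the upper arm. -/
theorem barrier_BBA {X Y : ℝ} {Bl : ℝ → ℝ → Prop} {a b c v : LShape}
    (hv : v.x = 0 ∧ v.y = 0 ∧ v.hx = X ∧ v.vy = Y) (hX : 0 < X) (hY : 0 < Y)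
    (ba : ∀ p ∈ a.carrier, Bl p.1 p.2) (bb : ∀ p ∈ b.carrier, Bl p.1 p.2)
    (bc : ∀ p ∈ c.carrier, Bl p.1 p.2) (bv : ∀ t, 0 ≤ t → t < X → Bl t 0)
    (bv' : ∀ t, 0 ≤ t → t < Y → Bl 0 t)
    (ha : VH a v ∧ HV a b) (hb : VH b v ∧ HV b c) (hc : HV c v ∧ VH c a) :
    ∃ R s, (s = a ∨ s = b ∨ s = c) ∧ Barrier X Y Bl R s := by
  obtain ⟨v1, v2, v3, v4⟩ := hv
  obtain ⟨⟨a1, a2⟩, a3, a4⟩ := ha
  obtain ⟨⟨b1, b2⟩, b3, b4⟩ := hb
  obtain ⟨⟨c1, c2⟩, c3, c4⟩ := hc
  rw [v2] at a1 b1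
  rw [v1] at c1
  rw [v1, v3] at a2 b2
  rw [v2, v4] at c2
  rw [b1] at a4
  rw [c3] at b4
  rw [a3] at c4
  have a2' : 0 < a.x ∧ a.x < X := by
    rcases a2 with h | h
    · exact h
    · exact absurd (h.1.trans h.2) (not_lt.2 hX.le)
  have b2' : 0 < b.x ∧ b.x < X := by
    rcases b2 with h | h
    · exact h
    · exact absurd (h.1.trans h.2) (not_lt.2 hX.le)
  have c2' : 0 < c.y ∧ c.y < Y := by
    rcases c2 with h | h
    · exact h
    · exact absurd (h.1.trans h.2) (not_lt.2 hY.le)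
  have hay : 0 < a.y ∧ a.y < b.y ∧ b.y < c.y := by
    rcases a4 with h | h <;> rcases b4 with h' | h'
    · exfalso; linarith [h.1, h.2, h'.1, h'.2, c2'.1]
    · exfalso; linarith [h.1, h.2, h'.1, h'.2, c2'.1]
    · exfalso; linarith [h.1, h.2, h'.1, h'.2, c2'.1]
    · exact ⟨h.1, h'.1.trans_le le_rfl, h'.2⟩
  obtain ⟨y1, y2, y3⟩ := hay
  rcases c4 with h | h
  · refine ⟨fun x y => Stair a.y c.y a.x c.x y x, c, Or.inr (Or.inr rfl), ?_⟩
    have g1 : ∀ t, 0 ≤ t → t ≤ a.y → Bl a.x t := fun t h1 h2 =>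
      bl_v ba (Set.mem_uIcc.2 (Or.inr ⟨by rw [a1]; exact h1, h2⟩))
    have g2 : ∀ t, a.x ≤ t → t ≤ c.x → Bl t a.y := fun t h1 h2 =>
      bl_h ba (Set.mem_uIcc.2 (Or.inl ⟨h1, by rw [a3]; linarith [h.2]⟩))
    have g3 : ∀ t, a.y ≤ t → t ≤ c.y → Bl c.x t := fun t h1 h2 =>
      bl_v bc (Set.mem_uIcc.2 (Or.inr ⟨by rw [c3]; exact h1, h2⟩))
    have g4 : ∀ t, 0 ≤ t → t ≤ c.x → Bl t c.y := fun t h1 h2 =>
      bl_h bc (Set.mem_uIcc.2 (Or.inr ⟨by rw [c1]; exact h1, h2⟩))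
    have g5 : ∀ t, 0 ≤ t → t ≤ c.y → Bl 0 t := fun t h1 h2 => bv' t h1 (by linarith [c2'.2])
    have g6 : ∀ t, 0 ≤ t → t ≤ a.x → Bl t 0 := fun t h1 h2 => bv t h1 (by linarith [a2'.2])
    refine ⟨fun x x' y => stair_ver (Bl := fun x y => Bl y x) h.1 g1 g3 g5,
      fun x y y' => stair_hor (Bl := fun x y => Bl y x) y1 g2 g4 g6,
      fun y h0 => stair_bottom a2'.1 h.1 h0, ?_, c1, by linarith [a2'.1, h.1], c2'.1⟩
    rintro x y ⟨-, h2, -, h4, -⟩
    exact ⟨by linarith [h.2, b2'.2], h2.trans c2'.2⟩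
  · refine ⟨fun x y => Stair b.y c.y b.x c.x y x, c, Or.inr (Or.inr rfl), ?_⟩
    have hby : 0 < b.y := y1.trans y2
    have g1 : ∀ t, 0 ≤ t → t ≤ b.y → Bl b.x t := fun t h1 h2 =>
      bl_v bb (Set.mem_uIcc.2 (Or.inr ⟨by rw [b1]; exact h1, h2⟩))
    have g2 : ∀ t, b.x ≤ t → t ≤ c.x → Bl t b.y := fun t h1 h2 =>
      bl_h bb (Set.mem_uIcc.2 (Or.inl ⟨h1, by rw [b3]; exact h2⟩))
    have g3 : ∀ t, b.y ≤ t → t ≤ c.y → Bl c.x t := fun t h1 h2 =>
      bl_v bc (Set.mem_uIcc.2 (Or.inr ⟨by rw [c3]; linarith, h2⟩))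
    have g4 : ∀ t, 0 ≤ t → t ≤ c.x → Bl t c.y := fun t h1 h2 =>
      bl_h bc (Set.mem_uIcc.2 (Or.inr ⟨by rw [c1]; exact h1, h2⟩))
    have g5 : ∀ t, 0 ≤ t → t ≤ c.y → Bl 0 t := fun t h1 h2 => bv' t h1 (by linarith [c2'.2])
    have g6 : ∀ t, 0 ≤ t → t ≤ b.x → Bl t 0 := fun t h1 h2 => bv t h1 (by linarith [b2'.2])
    refine ⟨fun x x' y => stair_ver (Bl := fun x y => Bl y x) h.1 g1 g3 g5,
      fun x y y' => stair_hor (Bl := fun x y => Bl y x) hby g2 g4 g6,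
      fun y h0 => stair_bottom b2'.1 h.1 h0, ?_, c1, by linarith [b2'.1, h.1], c2'.1⟩
    rintro x y ⟨-, h2, -, h4, -⟩
    exact ⟨by linarith [h.2, a2'.2], h2.trans c2'.2⟩

/-- The three shapes start on the same arm of the hub: impossible. -/
theorem no_AAA {a b c v : LShape} (hv : v.x = 0) (ha : HV a v ∧ VH a b) (hb : HV b v ∧ VH b c)
    (hc : HV c v ∧ VH c a) : False := by
  have a1 := ha.1.1
  have b1 := hb.1.1
  have c1 := hc.1.1
  have a2 := ha.2.2
  have b2 := hb.2.2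
  have c2 := hc.2.2
  rw [hv] at a1 b1 c1
  rw [b1] at a2
  rw [c1] at b2
  rw [a1] at c2
  rcases a2 with h1 | h1 <;> rcases b2 with h2 | h2 <;> rcases c2 with h3 | h3 <;>
    linarith [h1.1, h1.2, h2.1, h2.2, h3.1, h3.2]

theorem no_BBB {a b c v : LShape} (hv : v.y = 0) (ha : VH a v ∧ HV a b) (hb : VH b v ∧ HV b c)
    (hc : VH c v ∧ HV c a) : False := by
  have a1 := ha.1.1
  have b1 := hb.1.1
  have c1 := hc.1.1
  have a2 := ha.2.2
  have b2 := hb.2.2
  have c2 := hc.2.2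
  rw [hv] at a1 b1 c1
  rw [b1] at a2
  rw [c1] at b2
  rw [a1] at c2
  rcases a2 with h1 | h1 <;> rcases b2 with h2 | h2 <;> rcases c2 with h3 | h3 <;>
    linarith [h1.1, h1.2, h2.1, h2.2, h3.1, h3.2]

/-- Three shapes that touch the hub and each other cyclically form a barrier. -/
theorem barrier_cyclic {X Y : ℝ} {Bl : ℝ → ℝ → Prop} {a b c v : LShape}
    (hv : v.x = 0 ∧ v.y = 0 ∧ v.hx = X ∧ v.vy = Y) (hX : 0 < X) (hY : 0 < Y)
    (ba : ∀ p ∈ a.carrier, Bl p.1 p.2) (bb : ∀ p ∈ b.carrier, Bl p.1 p.2)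
    (bc : ∀ p ∈ c.carrier, Bl p.1 p.2) (bv : ∀ t, 0 ≤ t → t < X → Bl t 0)
    (bv' : ∀ t, 0 ≤ t → t < Y → Bl 0 t)
    (ha : (HV a v ∧ VH a b) ∨ (VH a v ∧ HV a b)) (hb : (HV b v ∧ VH b c) ∨ (VH b v ∧ HV b c))
    (hc : (HV c v ∧ VH c a) ∨ (VH c v ∧ HV c a)) :
    ∃ R s, (s = a ∨ s = b ∨ s = c) ∧ Barrier X Y Bl R s := by
  rcases ha with ha | ha <;> rcases hb with hb | hb <;> rcases hc with hc | hc
  · exact (no_AAA hv.1 ha hb hc).elim
  · exact barrier_AAB hv hX hY ba bb bc bv bv' ha hb hc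
  · obtain ⟨R, s, hs, h⟩ := barrier_AAB hv hX hY bc ba bb bv bv' hc ha hb
    exact ⟨R, s, by tauto, h⟩
  · obtain ⟨R, s, hs, h⟩ := barrier_BBA hv hX hY bb bc ba bv bv' hb hc ha
    exact ⟨R, s, by tauto, h⟩
  · obtain ⟨R, s, hs, h⟩ := barrier_AAB hv hX hY bb bc ba bv bv' hb hc ha
    exact ⟨R, s, by tauto, h⟩
  · obtain ⟨R, s, hs, h⟩ := barrier_BBA hv hX hY bc ba bb bv bv' hc ha hb
    exact ⟨R, s, by tauto, h⟩
  · obtain ⟨R, s, hs, h⟩ := barrier_BBA hv hX hY ba bb bc bv bv' ha hb hc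
    exact ⟨R, s, by tauto, h⟩
  · exact (no_BBB hv.2.1 ha hb hc).elim

/-! ### The contradiction -/

section Final

variable {L : Fin 17 → LShape}

/-- The points of the petal `j` and the points of the hub other than its ends. -/
def Blk (L : Fin 17 → LShape) (j : Fin 4) (x y : ℝ) : Prop :=
  (∃ k, (x, y) ∈ (L (pet j k)).carrier) ∨ (y = 0 ∧ 0 ≤ x ∧ x < (L 0).hx) ∨
    (x = 0 ∧ 0 ≤ y ∧ y < (L 0).vy)

/-- The bend of the hub is the origin and its arms point to the right and upwards. -/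
structure Norm (L : Fin 17 → LShape) : Prop where
  x0 : (L 0).x = 0
  y0 : (L 0).y = 0
  hx : 0 < (L 0).hx
  vy : 0 < (L 0).vy

/-- The ends of the hub do not touch the petal `j`. -/
def Free (L : Fin 17 → LShape) (j : Fin 4) : Prop :=
  ∀ k, ¬ HV (L 0) (L (pet j k)) ∧ ¬ VH (L 0) (L (pet j k))

theorem LShape.IsEnd.mem {s : LShape} {p : ℝ × ℝ} (h : s.IsEnd p) : p ∈ s.carrier := by
  rcases h with rfl | rfl
  · exact Or.inl ⟨rfl, Set.right_mem_uIcc⟩
  · exact Or.inr ⟨rfl, Set.right_mem_uIcc⟩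

theorem hub_mem (hN : Norm L) {x y : ℝ} (h : (y = 0 ∧ 0 ≤ x ∧ x < (L 0).hx) ∨
    (x = 0 ∧ 0 ≤ y ∧ y < (L 0).vy)) : (x, y) ∈ (L 0).carrier ∧ ¬ (L 0).IsEnd (x, y) := by
  have h1 := hN.x0
  have h2 := hN.y0
  have h3 := hN.hx
  have h4 := hN.vy
  rcases h with ⟨rfl, h5, h6⟩ | ⟨rfl, h5, h6⟩
  · refine ⟨Or.inl ⟨h2.symm, ?_⟩, ?_⟩
    · rw [h1]; exact Set.mem_uIcc.2 (Or.inl ⟨h5, h6.le⟩)
    · rintro (e | e)
      · exact h6.ne (congrArg Prod.fst e)
      · have e' : (0 : ℝ) = (L 0).vy := congrArg Prod.snd e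
        exact h4.ne e'
  · refine ⟨Or.inr ⟨h1.symm, ?_⟩, ?_⟩
    · rw [h2]; exact Set.mem_uIcc.2 (Or.inl ⟨h5, h6.le⟩)
    · rintro (e | e)
      · have e' : (0 : ℝ) = (L 0).hx := congrArg Prod.fst e
        exact h3.ne e'
      · exact h6.ne (congrArg Prod.snd e)

/-- `u` has an end on `w`. -/
def Rl (L : Fin 17 → LShape) (u w : Fin 17) : Prop := HV (L u) (L w) ∨ VH (L u) (L w)

theorem rl_split (hL : IsRep GG L) {u w : Fin 17} (hw : w ≠ 0) (h0 : Rl L u 0) (h : Rl L u w) :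
    (HV (L u) (L 0) ∧ VH (L u) (L w)) ∨ (VH (L u) (L 0) ∧ HV (L u) (L w)) := by
  rcases h0 with h0 | h0 <;> rcases h with h | h
  · exact absurd (HV_unique hL h h0) hw
  · exact Or.inl ⟨h0, h⟩
  · exact Or.inr ⟨h0, h⟩
  · exact absurd (VH_unique hL h h0) hw

theorem rl_once (hL : IsRep GG L) {u w w' : Fin 17} (hw : w ≠ 0) (hw' : w' ≠ 0) (hww : w ≠ w')
    (h0 : Rl L u 0) (h : Rl L u w) (h' : Rl L u w') : False := by
  rcases rl_split hL hw h0 h with h1 | h1 <;> rcases rl_split hL hw' h0 h' with h2 | h2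
  · exact hww (VH_unique hL h1.2 h2.2)
  · exact hw (HV_unique hL h2.2 h1.1 |>.symm ▸ (HV_unique hL h2.2 h1.1) ▸ absurd (HV_unique hL h2.2 h1.1) hw')
  · exact absurd (HV_unique hL h1.2 h2.1) hw
  · exact hww (HV_unique hL h1.2 h2.2)

/-- A free petal forms a barrier. -/
theorem free_barrier (hL : IsRep GG L) (hN : Norm L) {j : Fin 4} (hj : Free L j) :
    ∃ (R : ℝ → ℝ → Prop) (k : Fin 3), Barrier (L 0).hx (L 0).vy (Blk L j) R (L (pet j k)) := by
  have h0 : ∀ k, Rl L (pet j k) 0 := by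
    intro k
    rcases adj_cases hL (adj_hub j k) with h | h | h
    · exact h
    · exact absurd h (hj k).1
    · exact absurd h (hj k).2
  have hp : ∀ k l, k ≠ l → Rl L (pet j k) (pet j l) ∨ Rl L (pet j l) (pet j k) :=
    fun k l hkl => adj_cases hL (adj_pet j k l hkl)
  have hone : ∀ k l m, l ≠ m → Rl L (pet j k) (pet j l) → ¬ Rl L (pet j k) (pet j m) := by
    intro k l m hlm h h'
    exact rl_once hL (pet_ne_hub j l) (pet_ne_hub j m) (fun e => hlm (pet_inj _ _ _ _ e).2)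
      (h0 k) h h'
  have hv : (L 0).x = 0 ∧ (L 0).y = 0 ∧ (L 0).hx = (L 0).hx ∧ (L 0).vy = (L 0).vy :=
    ⟨hN.x0, hN.y0, rfl, rfl⟩
  have hb : ∀ k, ∀ p ∈ (L (pet j k)).carrier, Blk L j p.1 p.2 := fun k p hp => Or.inl ⟨k, hp⟩
  have hbv : ∀ t, 0 ≤ t → t < (L 0).hx → Blk L j t 0 := fun t h1 h2 => Or.inr (Or.inl ⟨rfl, h1, h2⟩)
  have hbv' : ∀ t, 0 ≤ t → t < (L 0).vy → Blk L j 0 t := fun t h1 h2 => Or.inr (Or.inr ⟨rfl, h1, h2⟩)
  have hs : ∀ k l, Rl L (pet j k) (pet j l) →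
      (HV (L (pet j k)) (L 0) ∧ VH (L (pet j k)) (L (pet j l))) ∨
        (VH (L (pet j k)) (L 0) ∧ HV (L (pet j k)) (L (pet j l))) :=
    fun k l h => rl_split hL (pet_ne_hub j l) (h0 k) h
  rcases hp 0 1 (by decide) with h01 | h10
  · have h20 : Rl L (pet j 2) (pet j 0) :=
      (hp 2 0 (by decide)).resolve_right (hone 0 1 2 (by decide) h01)
    have h12 : Rl L (pet j 1) (pet j 2) :=
      (hp 1 2 (by decide)).resolve_right (hone 2 0 1 (by decide) h20)
    obtain ⟨R, s, hs', hB⟩ := barrier_cyclic hv hN.hx hN.vy (hb 0) (hb 1) (hb 2) hbv hbv'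
      (hs 0 1 h01) (hs 1 2 h12) (hs 2 0 h20)
    rcases hs' with rfl | rfl | rfl
    · exact ⟨R, 0, hB⟩
    · exact ⟨R, 1, hB⟩
    · exact ⟨R, 2, hB⟩
  · have h21 : Rl L (pet j 2) (pet j 1) :=
      (hp 2 1 (by decide)).resolve_right (hone 1 0 2 (by decide) h10)
    have h02 : Rl L (pet j 0) (pet j 2) :=
      (hp 0 2 (by decide)).resolve_right (hone 2 1 0 (by decide) h21)
    obtain ⟨R, s, hs', hB⟩ := barrier_cyclic hv hN.hx hN.vy (hb 0) (hb 2) (hb 1) hbv hbv'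
      (hs 0 2 h02) (hs 2 1 h21) (hs 1 0 h10)
    rcases hs' with rfl | rfl | rfl
    · exact ⟨R, 0, hB⟩
    · exact ⟨R, 2, hB⟩
    · exact ⟨R, 1, hB⟩

/-- The shape `u` is neither the hub nor adjacent to or in the petal `j`. -/
def Away (j : Fin 4) (u : Fin 17) : Prop :=
  u ≠ 0 ∧ ∀ k, u ≠ pet j k ∧ ¬ GG.Adj u (pet j k)

theorem blk_end (hL : IsRep GG L) (hN : Norm L) {j : Fin 4} {u : Fin 17} (hu : Away j u)
    {p : ℝ × ℝ} (hp : p ∈ (L u).carrier) (hb : Blk L j p.1 p.2) : (L u).IsEnd p := by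
  rcases hb with ⟨k, hk⟩ | hb
  · exact (disjoint_of_nadj hL (hu.2 k).1 (hu.2 k).2 hp hk).elim
  · obtain ⟨h1, h2⟩ := hub_mem hN hb
    rcases hL.1 u 0 hu.1 p hp h1 with h3 | h3
    · exact h3.1
    · exact absurd h3.1 h2

theorem uIcc_aux {a b p : ℝ} (h : b ∈ Set.uIcc a p) (h' : p ∈ Set.uIcc a b) : p = b := by
  rw [Set.mem_uIcc] at h h'
  rcases h with ⟨h1, h2⟩ | ⟨h1, h2⟩ <;> rcases h' with ⟨h3, h4⟩ | ⟨h3, h4⟩ <;> linarith

theorem uIcc_sub {a b p t : ℝ} (h : t ∈ Set.uIcc a p) (h' : p ∈ Set.uIcc a b) :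
    t ∈ Set.uIcc a b := by
  rw [Set.mem_uIcc] at h h' ⊢
  rcases h with ⟨h1, h2⟩ | ⟨h1, h2⟩ <;> rcases h' with ⟨h3, h4⟩ | ⟨h3, h4⟩
  · left; constructor <;> linarith
  · right; constructor <;> linarith
  · left; constructor <;> linarith
  · right; constructor <;> linarith

theorem inside_iff (hL : IsRep GG L) (hN : Norm L) {j : Fin 4} {R : ℝ → ℝ → Prop} {s : LShape}
    (B : Barrier (L 0).hx (L 0).vy (Blk L j) R s) {u : Fin 17} (hu : Away j u) {p : ℝ × ℝ}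
    (hp : p ∈ (L u).carrier) (hnb : ¬ Blk L j p.1 p.2) :
    R (L u).x (L u).y ↔ R p.1 p.2 := by
  rcases hp with ⟨h1, h2⟩ | ⟨h1, h2⟩
  · -- no blocked point on the way along the horizontal arm
    have key : ∀ t ∈ Set.uIcc (L u).x p.1, ¬ Blk L j t (L u).y := by
      intro t ht hb
      have h3 := blk_end hL hN hu (p := (t, (L u).y)) (Or.inl ⟨rfl, uIcc_sub ht h2⟩) hb
      rcases h3 with h3 | h3
      · have h4 : t = (L u).hx := congrArg Prod.fst h3
        rw [h4] at ht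
        have h5 := uIcc_aux ht h2
        apply hnb
        rw [h5, h1, ← h4]
        exact hb
      · exact (L u).vy_ne (congrArg Prod.snd h3).symm
    rw [h1]
    constructor
    · intro h
      by_contra h'
      obtain ⟨t, ht, hb⟩ := B.hor _ _ _ h h'
      exact key t ht hb
    · intro h
      by_contra h'
      obtain ⟨t, ht, hb⟩ := B.hor _ _ _ h h'
      rw [Set.uIcc_comm] at ht
      exact key t ht hb
  · have key : ∀ t ∈ Set.uIcc (L u).y p.2, ¬ Blk L j (L u).x t := by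
      intro t ht hb
      have h3 := blk_end hL hN hu (p := ((L u).x, t)) (Or.inr ⟨rfl, uIcc_sub ht h2⟩) hb
      rcases h3 with h3 | h3
      · exact (L u).hx_ne (congrArg Prod.fst h3).symm
      · have h4 : t = (L u).vy := congrArg Prod.snd h3
        rw [h4] at ht
        have h5 := uIcc_aux ht h2
        apply hnb
        rw [h5, h1, ← h4]
        exact hb
    rw [h1]
    constructor
    · intro h
      by_contra h'
      obtain ⟨t, ht, hb⟩ := B.ver _ _ _ h h'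
      exact key t ht hb
    · intro h
      by_contra h'
      obtain ⟨t, ht, hb⟩ := B.ver _ _ _ h h'
      rw [Set.uIcc_comm] at ht
      exact key t ht hb

theorem inside_adj (hL : IsRep GG L) (hN : Norm L) {j : Fin 4} {R : ℝ → ℝ → Prop} {s : LShape}
    (B : Barrier (L 0).hx (L 0).vy (Blk L j) R s) {u w : Fin 17} (hu : Away j u) (hw : Away j w)
    (huw : GG.Adj u w) : R (L u).x (L u).y ↔ R (L w).x (L w).y := by
  obtain ⟨p, hp⟩ := (hL.2 u w huw.ne).1 huw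
  have hpu : p ∈ (L u).carrier := by
    rcases hp with hp | hp
    · exact hp.1.mem
    · exact hp.2.1
  have hpw : p ∈ (L w).carrier := by
    rcases hp with hp | hp
    · exact hp.2.1
    · exact hp.1.mem
  have hnb : ¬ Blk L j p.1 p.2 := by
    intro hb
    have h1 := blk_end hL hN hu hpu hb
    have h2 := blk_end hL hN hw hpw hb
    rcases hp with hp | hp
    · exact hp.2.2.1 h2
    · exact hp.2.2.1 h1
  rw [inside_iff hL hN B hu hpu hnb, inside_iff hL hN B hw hpw hnb]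

theorem away_pet {i j : Fin 4} (h : i ≠ j) (k : Fin 3) : Away j (pet i k) :=
  ⟨pet_ne_hub i k, fun l => ⟨fun e => h (pet_inj _ _ _ _ e).1, nadj_pet i j k l h⟩⟩

theorem away_link {i j : Fin 4} (h : i ≠ j) (h' : i + 1 ≠ j) : Away j (link i) :=
  ⟨link_ne_hub i, fun l => ⟨link_ne_pet i j l, nadj_link i j l h h'⟩⟩

theorem others : ∀ i j : Fin 4, i ≠ j → i = j + 1 ∨ i = j + 2 ∨ i = j + 3 := by decide
theorem shifts : ∀ j : Fin 4, j + 1 ≠ j ∧ j + 2 ≠ j ∧ j + 3 ≠ j ∧ j + 1 + 1 = j + 2 ∧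
    j + 2 + 1 = j + 3 := by decide

/-- All other petals lie on the same side of a barrier. -/
theorem inside_all (hL : IsRep GG L) (hN : Norm L) {j : Fin 4} {R : ℝ → ℝ → Prop} {s : LShape}
    (B : Barrier (L 0).hx (L 0).vy (Blk L j) R s) {i i' : Fin 4} (hi : i ≠ j) (hi' : i' ≠ j)
    (k k' : Fin 3) (h : R (L (pet i k)).x (L (pet i k)).y) :
    R (L (pet i' k')).x (L (pet i' k')).y := by
  have h1 : ∀ i, i ≠ j → ∀ k l, (R (L (pet i k)).x (L (pet i k)).y ↔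
      R (L (pet i l)).x (L (pet i l)).y) := by
    intro i hi k l
    by_cases hkl : k = l
    · rw [hkl]
    · exact inside_adj hL hN B (away_pet hi k) (away_pet hi l) (adj_pet i k l hkl)
  have h2 : ∀ i, i ≠ j → i + 1 ≠ j → (R (L (pet i 0)).x (L (pet i 0)).y ↔
      R (L (pet (i + 1) 0)).x (L (pet (i + 1) 0)).y) := by
    intro i hi hi'
    rw [h1 (i + 1) hi' 0 1,
      ← inside_adj hL hN B (away_link hi hi') (away_pet hi 0) (adj_link i),
      inside_adj hL hN B (away_link hi hi') (away_pet hi' 1) (adj_link' i)]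
  obtain ⟨s1, s2, s3, s4, s5⟩ := shifts j
  have e1 := h2 (j + 1) s1 (by rw [s4]; exact s2)
  have e2 := h2 (j + 2) s2 (by rw [s5]; exact s3)
  rw [s4] at e1
  rw [s5] at e2
  have h3 : ∀ i, i ≠ j → (R (L (pet i 0)).x (L (pet i 0)).y ↔
      R (L (pet (j + 1) 0)).x (L (pet (j + 1) 0)).y) := by
    intro i hi
    rcases others i j hi with rfl | rfl | rfl
    · exact Iff.rfl
    · exact e1.symm
    · exact (e1.trans e2).symm
  exact (h1 i' hi' 0 k').1 ((h3 i' hi').2 ((h3 i hi).1 ((h1 i hi k 0).1 h)))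

/-- Comparing two barriers. -/
theorem compare (hL : IsRep GG L) (hN : Norm L) {j i : Fin 4} (hij : i ≠ j) {k l : Fin 3}
    {R R' : ℝ → ℝ → Prop} (B : Barrier (L 0).hx (L 0).vy (Blk L j) R (L (pet j k)))
    (B' : Barrier (L 0).hx (L 0).vy (Blk L i) R' (L (pet i l))) :
    R (L (pet i l)).x (L (pet i l)).y ↔ (L (pet i l)).y < (L (pet j k)).y := by
  obtain ⟨l1, l2, l3⟩ := B'.land
  obtain ⟨ε, hε, hR⟩ := B.left _ l3
  set τ := min (ε / 2) (L (pet i l)).x with hτ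
  have hτ0 : 0 < τ := lt_min (by linarith) l2
  have hτε : τ < ε := (min_le_left _ _).trans_lt (by linarith)
  have hτx : τ ≤ (L (pet i l)).x := min_le_right _ _
  rw [← hR τ hτ0 hτε]
  apply inside_iff hL hN B (away_pet hij l) (p := (τ, (L (pet i l)).y))
  · exact Or.inl ⟨rfl, Set.mem_uIcc.2 (Or.inr ⟨by rw [l1]; exact hτ0.le, hτx⟩)⟩
  · rintro (⟨m, hm⟩ | ⟨h1, -⟩ | ⟨h1, -⟩)
    · refine disjoint_of_nadj hL (fun e => hij (pet_inj _ _ _ _ e).1) (nadj_pet i j l m hij)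
        (p := (τ, (L (pet i l)).y)) ?_ hm
      exact Or.inl ⟨rfl, Set.mem_uIcc.2 (Or.inr ⟨by rw [l1]; exact hτ0.le, hτx⟩)⟩
    · exact l3.ne' h1
    · exact hτ0.ne' h1

theorem heights_ne (hL : IsRep GG L) {X Y X' Y' : ℝ} {Bl Bl' : ℝ → ℝ → Prop} {j i : Fin 4}
    (hij : i ≠ j) {k l : Fin 3}
    {R R' : ℝ → ℝ → Prop} (B : Barrier X Y Bl R (L (pet j k)))
    (B' : Barrier X' Y' Bl' R' (L (pet i l))) : (L (pet i l)).y ≠ (L (pet j k)).y := by
  intro h
  obtain ⟨a1, a2, -⟩ := B.land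
  obtain ⟨b1, b2, -⟩ := B'.land
  refine disjoint_of_nadj hL (fun e => hij (pet_inj _ _ _ _ e).1) (nadj_pet i j l k hij)
    (p := (min (L (pet i l)).x (L (pet j k)).x, (L (pet i l)).y)) ?_ ?_
  · exact Or.inl ⟨rfl, Set.mem_uIcc.2 (Or.inr ⟨by rw [b1]; exact (lt_min b2 a2).le,
      min_le_left _ _⟩)⟩
  · exact Or.inl ⟨h, Set.mem_uIcc.2 (Or.inr ⟨by rw [a1]; exact (lt_min b2 a2).le,
      min_le_right _ _⟩)⟩

theorem pick : ∀ a b : Fin 4, ∃ j k : Fin 4, j ≠ k ∧ j ≠ a ∧ j ≠ b ∧ k ≠ a ∧ k ≠ b := by decide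
theorem pick2 : ∀ a : Fin 4, ∃ j k : Fin 4, j ≠ k ∧ j ≠ a ∧ k ≠ a := by decide

theorem no_norm_rep (hL : IsRep GG L) (hN : Norm L) : False := by
  -- the ends of the hub touch at most two petals
  obtain ⟨a, ha⟩ : ∃ a, ∀ j k, HV (L 0) (L (pet j k)) → j = a := by
    by_cases h : ∃ j k, HV (L 0) (L (pet j k))
    · obtain ⟨a, k, h⟩ := h
      exact ⟨a, fun j k' h' => (pet_inj _ _ _ _ (HV_unique hL h' h)).1⟩
    · exact ⟨0, fun j k h' => absurd ⟨j, k, h'⟩ h⟩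
  obtain ⟨b, hb⟩ : ∃ b, ∀ j k, VH (L 0) (L (pet j k)) → j = b := by
    by_cases h : ∃ j k, VH (L 0) (L (pet j k))
    · obtain ⟨a, k, h⟩ := h
      exact ⟨a, fun j k' h' => (pet_inj _ _ _ _ (VH_unique hL h' h)).1⟩
    · exact ⟨0, fun j k h' => absurd ⟨j, k, h'⟩ h⟩
  have hfree : ∀ j, j ≠ a → j ≠ b → Free L j := fun j h1 h2 k =>
    ⟨fun h => h1 (ha j k h), fun h => h2 (hb j k h)⟩
  have hbar : ∀ j, ∃ (R : ℝ → ℝ → Prop) (k : Fin 3), Free L j →
      Barrier (L 0).hx (L 0).vy (Blk L j) R (L (pet j k)) := by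
    intro j
    by_cases hj : Free L j
    · obtain ⟨R, k, hB⟩ := free_barrier hL hN hj
      exact ⟨R, k, fun _ => hB⟩
    · exact ⟨fun _ _ => True, 0, fun h => absurd h hj⟩
  choose R m hB using hbar
  -- a petal inside a barrier is free
  have hins : ∀ j, Free L j → ∀ i, i ≠ j → (∃ i' k', i' ≠ j ∧
      R j (L (pet i' k')).x (L (pet i' k')).y) → Free L i := by
    rintro j hj i hi ⟨i', k', hi', h⟩ k
    have h1 := inside_all hL hN (hB j hj) hi' hi k' k h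
    have h2 := (hB j hj).box _ _ h1
    exact ⟨fun h3 => h2.1.ne' h3.1, fun h3 => h2.2.ne' h3.1⟩
  -- all petals are free
  have hall : ∀ i, Free L i := by
    obtain ⟨j, k, hjk, h1, h2, h3, h4⟩ := pick a b
    have main : ∀ j k : Fin 4, j ≠ k → Free L j → Free L k →
        (L (pet k (m k))).y < (L (pet j (m j))).y → ∀ i, Free L i := by
      intro j k hjk hj hk hlt i
      by_cases hij : i = j
      · rw [hij]; exact hj
      · exact hins j hj i hij ⟨k, m k, hjk.symm,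
          (compare hL hN hjk.symm (hB j hj) (hB k hk)).2 hlt⟩
    have hj := hfree j h1 h2
    have hk := hfree k h3 h4
    rcases lt_or_gt_of_ne (heights_ne hL hjk.symm (hB j hj) (hB k hk)) with h | h
    · exact main j k hjk hj hk h
    · exact main k j hjk.symm hk hj h
  -- the outermost petal
  obtain ⟨j0, -, hj0⟩ := exists_max_image (univ : Finset (Fin 4)) (fun j => (L (pet j (m j))).y)
    univ_nonempty
  obtain ⟨k, l, hkl, hk, hl⟩ := pick2 j0
  have main : ∀ k l : Fin 4, k ≠ l → k ≠ j0 → l ≠ j0 →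
      (L (pet k (m k))).y < (L (pet l (m l))).y → False := by
    intro k l hkl hk hl hlt
    have h1 := (compare hL hN hkl (hB l (hall l)) (hB k (hall k))).2 hlt
    have h2 := inside_all hL hN (hB l (hall l)) hkl hl.symm (m k) (m j0) h1
    have h3 := (compare hL hN hl.symm (hB l (hall l)) (hB j0 (hall j0))).1 h2
    exact absurd (hj0 l (mem_univ _)) (not_le.2 h3)
  rcases lt_or_gt_of_ne (heights_ne hL hkl (hB l (hall l)) (hB k (hall k))) with h | h
  · exact main k l hkl hk hl h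
  · exact main l k hkl.symm hl hk h

theorem no_rep : ¬ IsLContactGraph GG := by
  rintro ⟨L, hL⟩
  obtain ⟨ε, hε, h1⟩ : ∃ ε : ℝ, (ε = 1 ∨ ε = -1) ∧ 0 < ε * ((L 0).hx - (L 0).x) := by
    rcases lt_or_gt_of_ne (L 0).hx_ne with h | h
    · exact ⟨-1, Or.inr rfl, by linarith⟩
    · exact ⟨1, Or.inl rfl, by linarith⟩
  obtain ⟨δ, hδ, h2⟩ : ∃ δ : ℝ, (δ = 1 ∨ δ = -1) ∧ 0 < δ * ((L 0).vy - (L 0).y) := by
    rcases lt_or_gt_of_ne (L 0).vy_ne with h | h
    · exact ⟨-1, Or.inr rfl, by linarith⟩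
    · exact ⟨1, Or.inl rfl, by linarith⟩
  refine no_norm_rep (rep_map (a := (L 0).x) (b := (L 0).y) hε hδ hL) ⟨?_, ?_, h1, h2⟩
  · simp [LShape.map]
  · simp [LShape.map]

end Final

/-- There is a finite simple planar graph in which every nonempty set `W` of vertices spans at most
`2 |W| - 2` edges and which is not an L-contact graph. -/
theorem result : ∃ (n : ℕ) (G : SimpleGraph (Fin n)),
    Planar G ∧ Sparse G ∧ ¬ IsLContactGraph G :=
  ⟨17, GG, planar_GG, sparse_GG, no_rep⟩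

end Pool.Agent.Results.MP_d36e69_co.NotLContact
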